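import Mathlib

set_option autoImplicit false

open Finset

namespace Pool.Agent.Results.MP_128e7d_lc.ReadOnce

/-! ## Nondeterministic read-once branching programs -/

/-- A nondeterministic branching program over Boolean variables indexed by `X`: a finite directed
acyclic multigraph with a start node and an accepting node. An edge labelled `some (x, b)` may be
used only on inputs whose variable `x` has the value `b`; an edge labelled `none` may always be used
(a nondeterministic guess). -/
structure BranchingProgram (X : Type) where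
  /-- the nodes -/
  Node : Type
  /-- there are finitely many nodes -/
  [fintypeNode : Fintype Node]
  /-- the start node -/
  start : Node
  /-- the accepting node -/
  accept : Node
  /-- `Edge u l v`: there is an edge from `u` to `v` with label `l` -/
  Edge : Node → Option (X × Bool) → Node → Prop
  /-- the program has no directed cycle -/
  acyclic : ∃ rank : Node → ℕ, ∀ u l v, Edge u l v → rank u < rank v

attribute [instance] BranchingProgram.fintypeNode

namespace BranchingProgram

variable {X : Type} (P : BranchingProgram X)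

/-- `P.Path u L v`: there is a directed path from `u` to `v` whose tests, in order, are the
elements of the list `L`. -/
inductive Path : P.Node → List (X × Bool) → P.Node → Prop
  | refl (u : P.Node) : Path u [] u
  | guess {u v w : P.Node} {L : List (X × Bool)} :
      P.Edge u none v → Path v L w → Path u L w
  | test {u v w : P.Node} {x : X} {b : Bool} {L : List (X × Bool)} :
      P.Edge u (some (x, b)) v → Path v L w → Path u ((x, b) :: L) w

/-- The program accepts the input `a` if some path from the start node to the accepting node has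
all its tests satisfied by `a`. -/
def Accepts (a : X → Bool) : Prop :=
  ∃ L, P.Path P.start L P.accept ∧ ∀ t ∈ L, a t.1 = t.2

/-- The program is read-once: no path from the start node to the accepting node tests a variable
twice. -/
def IsReadOnce : Prop :=
  ∀ L, P.Path P.start L P.accept → (L.map Prod.fst).Nodup

/-- The program computes the predicate `f`. -/
def Computes (f : (X → Bool) → Prop) : Prop := ∀ a, P.Accepts a ↔ f a

/-- The size of a program is its number of nodes. -/
def size : ℕ := Fintype.card P.Node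

end BranchingProgram

/-! ## Graph isomorphism -/

/-- Unordered pairs of distinct vertices among `n` vertices. -/
abbrev Pr (n : ℕ) : Type := {e : Sym2 (Fin n) // ¬ e.IsDiag}

/-- The Boolean variables: one for each unordered pair of vertices in each of the two graphs. -/
abbrev Var (n : ℕ) : Type := Pr n ⊕ Pr n

/-- The simple graph on `n` vertices described by a Boolean adjacency vector. -/
def graphOf {n : ℕ} (x : Pr n → Bool) : SimpleGraph (Fin n) where
  Adj i j := ∃ h : ¬ (s(i, j) : Sym2 (Fin n)).IsDiag, x ⟨s(i, j), h⟩ = true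
  symm := ⟨by
    rintro i j ⟨h, hx⟩
    have hs : (s(i, j) : Sym2 (Fin n)) = s(j, i) := Sym2.eq_swap
    refine ⟨hs ▸ h, ?_⟩
    simpa [hs] using hx⟩
  loopless := ⟨by
    rintro i ⟨h, -⟩
    exact h (by simp)⟩

/-- The graph isomorphism predicate: the two graphs described by the input are isomorphic. -/
def Isomorphic (n : ℕ) (a : Var n → Bool) : Prop :=
  Nonempty (graphOf (fun e => a (Sum.inl e)) ≃g graphOf (fun e => a (Sum.inr e)))

/-- action of a permutation on pairs -/
def pact {n : ℕ} (σ : Equiv.Perm (Fin n)) : Equiv.Perm (Pr n) where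
  toFun e := ⟨Sym2.map σ e.1, by rw [Sym2.isDiag_map σ.injective]; exact e.2⟩
  invFun e := ⟨Sym2.map σ.symm e.1, by rw [Sym2.isDiag_map σ.symm.injective]; exact e.2⟩
  left_inv e := by
    apply Subtype.ext
    simp [Sym2.map_map]
  right_inv e := by
    apply Subtype.ext
    simp [Sym2.map_map]

lemma pact_mul {n : ℕ} (σ τ : Equiv.Perm (Fin n)) (e : Pr n) :
    pact (σ * τ) e = pact σ (pact τ e) := by
  apply Subtype.ext
  simp [pact, Sym2.map_map]

lemma pact_inv {n : ℕ} (σ : Equiv.Perm (Fin n)) (e : Pr n) :
    pact σ⁻¹ (pact σ e) = e := by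
  rw [← pact_mul]; apply Subtype.ext; simp [pact]

lemma pact_inv' {n : ℕ} (σ : Equiv.Perm (Fin n)) (e : Pr n) :
    pact σ (pact σ⁻¹ e) = e := by
  rw [← pact_mul]; apply Subtype.ext; simp [pact]

lemma isomorphic_iff {n : ℕ} (a : Var n → Bool) :
    Isomorphic n a ↔ ∃ σ : Equiv.Perm (Fin n), ∀ e : Pr n,
      a (Sum.inr (pact σ e)) = a (Sum.inl e) := by
  constructor
  · rintro ⟨φ⟩
    refine ⟨φ.toEquiv, ?_⟩
    rintro ⟨e, he⟩
    induction e using Sym2.ind with
    | _ i j =>
      have h := φ.map_adj_iff (v := i) (w := j)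
      simp only [graphOf] at h
      rw [Bool.eq_iff_iff]
      constructor
      · intro h1
        obtain ⟨h2, h3⟩ := h.1 ⟨(pact φ.toEquiv ⟨s(i, j), he⟩).2, h1⟩
        exact h3
      · intro h1
        obtain ⟨h2, h3⟩ := h.2 ⟨he, h1⟩
        exact h3
  · rintro ⟨σ, hσ⟩
    refine ⟨⟨σ, ?_⟩⟩
    intro i j
    simp only [graphOf]
    constructor
    · rintro ⟨h, hx⟩
      have hd : ¬ (s(i, j) : Sym2 (Fin n)).IsDiag := by
        intro hd
        apply h
        rw [Sym2.mk_isDiag_iff] at hd ⊢
        rw [hd]
      refine ⟨hd, ?_⟩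
      rw [← hσ]
      exact hx
    · rintro ⟨h, hx⟩
      rw [← hσ] at hx
      exact ⟨(pact σ ⟨s(i, j), h⟩).2, hx⟩

/-! ## Counting solutions of a system of equalities -/

/-- If `β` is injective then the number of `z : Z → Bool` with `z (β e) = z (α e)` for all `e`
drops by a factor `2` for each `e` with `r (α e) < r (β e)`, where `r` is an injective ranking. -/
lemma card_solutions_le {E Z : Type} [Fintype E] [Fintype Z] [DecidableEq Z] [DecidableEq E]
    (α β : E → Z) (hβ : Function.Injective β) (r : Z → ℕ) :
    #{z : Z → Bool | ∀ e, z (β e) = z (α e)} * 2 ^ #{e | r (α e) < r (β e)}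
      ≤ 2 ^ Fintype.card Z := by
  classical
  set T : Finset E := {e | r (α e) < r (β e)} with hT
  set B : Finset Z := T.image β with hB
  have hBcard : #B = #T := Finset.card_image_of_injective _ hβ
  have h1 : #{z : Z → Bool | ∀ e, z (β e) = z (α e)} ≤ 2 ^ (Fintype.card Z - #T) := by
    have hinj : Set.InjOn (fun (z : Z → Bool) => fun (x : {x : Z // x ∉ B}) => z x.1)
        (↑({z : Z → Bool | ∀ e, z (β e) = z (α e)} : Finset (Z → Bool)) : Set (Z → Bool)) := by
      intro z hz z' hz' hzz
      simp only [Finset.coe_filter, Finset.mem_univ, true_and, Set.mem_ofPred_eq] at hz hz'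
      have key : ∀ m : ℕ, ∀ x : Z, r x = m → z x = z' x := by
        intro m
        induction m using Nat.strong_induction_on with
        | _ m ih =>
          intro x hx
          by_cases hxB : x ∈ B
          · rw [hB, Finset.mem_image] at hxB
            obtain ⟨e, he, rfl⟩ := hxB
            rw [hz e, hz' e]
            rw [hT, Finset.mem_filter] at he
            exact ih (r (α e)) (by omega) (α e) rfl
          · exact congrFun hzz ⟨x, hxB⟩
      funext x
      exact key _ x rfl
    have h2 := Finset.card_le_card_of_injOn (t := (Finset.univ : Finset ({x : Z // x ∉ B} → Bool)))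
      _ (by intro z _; simp) hinj
    refine h2.trans (le_of_eq ?_)
    rw [Finset.card_univ, Fintype.card_fun, Fintype.card_bool]
    congr 1
    rw [Fintype.card_subtype_compl]
    simp [hBcard]
  have hTle : #T ≤ Fintype.card Z := by
    rw [← hBcard]; exact Finset.card_le_univ B
  calc #{z : Z → Bool | ∀ e, z (β e) = z (α e)} * 2 ^ #T
      ≤ 2 ^ (Fintype.card Z - #T) * 2 ^ #T := Nat.mul_le_mul_right _ h1
    _ = 2 ^ Fintype.card Z := by rw [← pow_add]; congr 1; omega

/-- Symmetric version: each nontrivial equality costs a factor `√2`. -/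
lemma card_solutions_sq_le {E Z : Type} [Fintype E] [Fintype Z] [DecidableEq Z] [DecidableEq E]
    (α β : E → Z) (hα : Function.Injective α) (hβ : Function.Injective β) :
    #{z : Z → Bool | ∀ e, z (β e) = z (α e)} ^ 2 * 2 ^ #{e | α e ≠ β e}
      ≤ 2 ^ (2 * Fintype.card Z) := by
  classical
  let r : Z → ℕ := fun z => (Fintype.equivFin Z z : ℕ)
  have hr : Function.Injective r := by
    intro x y hxy
    exact (Fintype.equivFin Z).injective (Fin.ext hxy)
  have h1 := card_solutions_le α β hβ r
  have h2 := card_solutions_le β α hα r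
  have h3 : #{z : Z → Bool | ∀ e, z (α e) = z (β e)} = #{z : Z → Bool | ∀ e, z (β e) = z (α e)} := by
    congr 1
    ext z
    simp only [Finset.mem_filter, Finset.mem_univ, true_and]
    exact ⟨fun h e => (h e).symm, fun h e => (h e).symm⟩
  rw [h3] at h2
  have h4 : #{e | α e ≠ β e} = #{e | r (α e) < r (β e)} + #{e | r (β e) < r (α e)} := by
    rw [← Finset.card_union_of_disjoint]
    · congr 1
      ext e
      simp only [Finset.mem_filter, Finset.mem_univ, true_and, Finset.mem_union]
      constructor
      · intro h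
        exact lt_or_gt_of_ne (fun h' => h (hr h'))
      · rintro (h | h) h'
        · rw [h'] at h; exact lt_irrefl _ h
        · rw [h'] at h; exact lt_irrefl _ h
    · rw [Finset.disjoint_filter]
      intro e _ h h'
      exact lt_asymm h h'
  calc #{z : Z → Bool | ∀ e, z (β e) = z (α e)} ^ 2 * 2 ^ #{e | α e ≠ β e}
      = (#{z : Z → Bool | ∀ e, z (β e) = z (α e)} * 2 ^ #{e | r (α e) < r (β e)}) *
        (#{z : Z → Bool | ∀ e, z (β e) = z (α e)} * 2 ^ #{e | r (β e) < r (α e)}) := by
        rw [h4, pow_add]; ring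
    _ ≤ 2 ^ Fintype.card Z * 2 ^ Fintype.card Z := Nat.mul_le_mul h1 h2
    _ = 2 ^ (2 * Fintype.card Z) := by rw [← pow_add]; congr 1; omega

/-! ## Rectangles -/

/-- the input consisting of the graph `G` and its image under `π` -/
def inp {n : ℕ} (π : Equiv.Perm (Fin n)) (G : Pr n → Bool) : Var n → Bool :=
  Sum.elim G (fun e => G (pact π⁻¹ e))

/-- the first variable of the `e`-th equation -/
def alph {n : ℕ} (S : Finset (Var n)) (e : Pr n) : Pr n ⊕ Pr n :=
  if Sum.inl e ∈ S then Sum.inl e else Sum.inr e

/-- the second variable of the `e`-th equation -/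
def bet {n : ℕ} (S : Finset (Var n)) (π π' σ : Equiv.Perm (Fin n)) (e : Pr n) : Pr n ⊕ Pr n :=
  if Sum.inr (pact σ e) ∈ S then Sum.inl (pact π⁻¹ (pact σ e)) else Sum.inr (pact π'⁻¹ (pact σ e))

lemma alph_inj {n : ℕ} (S : Finset (Var n)) : Function.Injective (alph S) := by
  intro e e' h
  unfold alph at h
  split_ifs at h <;> simpa using h

lemma bet_inj {n : ℕ} (S : Finset (Var n)) (π π' σ : Equiv.Perm (Fin n)) :
    Function.Injective (bet S π π' σ) := by
  intro e e' h
  unfold bet at h
  split_ifs at h <;> simpa using h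

lemma inp_isomorphic {n : ℕ} (π : Equiv.Perm (Fin n)) (G : Pr n → Bool) :
    Isomorphic n (inp π G) := by
  rw [isomorphic_iff]
  refine ⟨π, fun e => ?_⟩
  simp [inp, pact_inv]

/-- The main rectangle lemma. -/
lemma rectangle {n : ℕ} (S : Finset (Var n)) (s : ℕ) (R : Finset (Equiv.Perm (Fin n) × (Pr n → Bool)))
    (hR : n.factorial * 2 ^ Fintype.card (Pr n) ≤ s * #R)
    (hmix : ∀ p ∈ R, ∀ q ∈ R,
      Isomorphic n (fun x => if x ∈ S then inp p.1 p.2 x else inp q.1 q.2 x)) :
    ∃ Pi0 : Finset (Equiv.Perm (Fin n)), n.factorial ≤ 2 * s * #Pi0 ∧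
      ∀ π ∈ Pi0, ∀ π' ∈ Pi0, ∃ σ : Equiv.Perm (Fin n),
        2 ^ #{e | alph S e ≠ bet S π π' σ e} ≤ 16 * s ^ 4 * n.factorial ^ 2 := by
  classical
  set M := Fintype.card (Pr n) with hM
  let F : Equiv.Perm (Fin n) → Finset (Pr n → Bool) := fun π => {G | (π, G) ∈ R}
  have hF : ∀ π, #(F π) ≤ 2 ^ M := by
    intro π
    refine (Finset.card_le_univ _).trans (le_of_eq ?_)
    rw [Fintype.card_fun, Fintype.card_bool]
  have hsum : #R = ∑ π, #(F π) := by
    rw [Finset.card_eq_sum_card_fiberwise (f := Prod.fst) (t := Finset.univ) (by intro x _; simp)]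
    refine Finset.sum_congr rfl fun π _ => ?_
    refine Finset.card_bij' (fun p _ => p.2) (fun G _ => (π, G)) ?_ ?_ ?_ ?_
    · rintro ⟨a, G⟩ h
      simp only [Finset.mem_filter] at h
      obtain ⟨h1, rfl⟩ := h
      simpa [F] using h1
    · intro G hG
      simpa [F] using hG
    · rintro ⟨a, G⟩ h
      simp only [Finset.mem_filter] at h
      obtain ⟨h1, rfl⟩ := h
      rfl
    · intro G _
      rfl
  set Pi0 : Finset (Equiv.Perm (Fin n)) := {π | 2 ^ M ≤ 2 * s * #(F π)} with hP0
  refine ⟨Pi0, ?_, ?_⟩
  · have h1 : 2 * s * #R ≤ #Pi0 * (2 * s * 2 ^ M) + n.factorial * 2 ^ M := by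
      rw [hsum, Finset.mul_sum, ← Finset.sum_filter_add_sum_filter_not Finset.univ
        (fun π => 2 ^ M ≤ 2 * s * #(F π))]
      refine Nat.add_le_add ?_ ?_
      · refine (Finset.sum_le_card_nsmul _ _ (2 * s * 2 ^ M) ?_).trans (le_of_eq ?_)
        · intro π _
          exact Nat.mul_le_mul_left _ (hF π)
        · rw [smul_eq_mul]
      · refine (Finset.sum_le_card_nsmul _ _ (2 ^ M) ?_).trans ?_
        · intro π hπ
          simp only [Finset.mem_filter, Finset.mem_univ, true_and, not_le] at hπ
          exact hπ.le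
        · rw [smul_eq_mul]
          refine Nat.mul_le_mul_right _ ?_
          refine (Finset.card_le_univ _).trans (le_of_eq ?_)
          rw [Fintype.card_perm, Fintype.card_fin]
    have h2 : n.factorial * 2 ^ M ≤ (2 * s * #Pi0) * 2 ^ M := by
      have : 2 * s * #R = 2 * (s * #R) := by ring
      nlinarith [hR, h1]
    exact Nat.le_of_mul_le_mul_right h2 (by positivity)
  · intro π hπ π' hπ'
    simp only [hP0, Finset.mem_filter, Finset.mem_univ, true_and] at hπ hπ'
    let sol : Equiv.Perm (Fin n) → Finset (Pr n ⊕ Pr n → Bool) := fun σ =>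
      {z | ∀ e, z (bet S π π' σ e) = z (alph S e)}
    obtain ⟨σ, -, hσ⟩ := Finset.exists_max_image (Finset.univ : Finset (Equiv.Perm (Fin n)))
      (fun σ => #(sol σ)) ⟨1, Finset.mem_univ _⟩
    refine ⟨σ, ?_⟩
    have h1 : #(F π) * #(F π') ≤ n.factorial * #(sol σ) := by
      have h2 : (F π ×ˢ F π').image (fun p => (Sum.elim p.1 p.2 : Pr n ⊕ Pr n → Bool)) ⊆
          (Finset.univ : Finset (Equiv.Perm (Fin n))).biUnion sol := by
        intro z hz
        rw [Finset.mem_image] at hz
        obtain ⟨⟨G, G'⟩, hGG, rfl⟩ := hz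
        rw [Finset.mem_product] at hGG
        simp only [F, Finset.mem_filter, Finset.mem_univ, true_and] at hGG
        have h3 := hmix _ hGG.1 _ hGG.2
        rw [isomorphic_iff] at h3
        obtain ⟨τ, hτ⟩ := h3
        rw [Finset.mem_biUnion]
        refine ⟨τ, Finset.mem_univ _, ?_⟩
        simp only [sol, Finset.mem_filter, Finset.mem_univ, true_and]
        intro e
        have h4 := hτ e
        unfold bet alph
        split_ifs at h4 ⊢ <;> simpa [inp] using h4
      have h3 : #((F π ×ˢ F π').image (fun p => (Sum.elim p.1 p.2 : Pr n ⊕ Pr n → Bool))) =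
          #(F π) * #(F π') := by
        rw [Finset.card_image_of_injective, Finset.card_product]
        rintro ⟨G, G'⟩ ⟨K, K'⟩ h
        simp only at h
        have h5 : G = K := by
          funext e
          have := congrFun h (Sum.inl e)
          simpa using this
        have h6 : G' = K' := by
          funext e
          have := congrFun h (Sum.inr e)
          simpa using this
        rw [h5, h6]
      rw [← h3]
      refine (Finset.card_le_card h2).trans (Finset.card_biUnion_le.trans ?_)
      refine (Finset.sum_le_card_nsmul _ _ (#(sol σ)) ?_).trans (le_of_eq ?_)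
      · intro τ hτ
        exact hσ τ hτ
      · rw [smul_eq_mul, Finset.card_univ, Fintype.card_perm, Fintype.card_fin]
    have h2 : #(sol σ) ^ 2 * 2 ^ #{e | alph S e ≠ bet S π π' σ e} ≤ 2 ^ (2 * Fintype.card (Pr n ⊕ Pr n)) :=
      card_solutions_sq_le (alph S) (bet S π π' σ) (alph_inj S) (bet_inj S π π' σ)
    rw [Fintype.card_sum, ← hM] at h2
    set k := #{e | alph S e ≠ bet S π π' σ e} with hk
    have h3 : (2 ^ M) * (2 ^ M) ≤ (2 * s * #(F π)) * (2 * s * #(F π')) := Nat.mul_le_mul hπ hπ'
    have h4 : (2 ^ M) * (2 ^ M) ≤ 4 * s ^ 2 * (n.factorial * #(sol σ)) := by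
      calc (2 ^ M) * (2 ^ M) ≤ (2 * s * #(F π)) * (2 * s * #(F π')) := h3
        _ = 4 * s ^ 2 * (#(F π) * #(F π')) := by ring
        _ ≤ 4 * s ^ 2 * (n.factorial * #(sol σ)) := Nat.mul_le_mul_left _ h1
    have h5 : 2 ^ k * 2 ^ (2 * (M + M)) ≤ (16 * s ^ 4 * n.factorial ^ 2) * 2 ^ (2 * (M + M)) := by
      calc 2 ^ k * 2 ^ (2 * (M + M)) = 2 ^ k * ((2 ^ M) * (2 ^ M)) ^ 2 := by
            congr 1
            rw [← pow_add, ← pow_mul]
            congr 1
            ring
        _ ≤ 2 ^ k * (4 * s ^ 2 * (n.factorial * #(sol σ))) ^ 2 :=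
            Nat.mul_le_mul_left _ (Nat.pow_le_pow_left h4 2)
        _ = (16 * s ^ 4 * n.factorial ^ 2) * (#(sol σ) ^ 2 * 2 ^ k) := by ring
        _ ≤ (16 * s ^ 4 * n.factorial ^ 2) * 2 ^ (2 * (M + M)) := Nat.mul_le_mul_left _ h2
    exact Nat.le_of_mul_le_mul_right h5 (by positivity)

/-! ## Degrees -/

/-- `i` and `j` are joined by a pair of `T` -/
def conn {n : ℕ} (T : Finset (Pr n)) (i j : Fin n) : Prop :=
  ∃ h : ¬ (s(i, j) : Sym2 (Fin n)).IsDiag, (⟨s(i, j), h⟩ : Pr n) ∈ T

lemma conn_symm {n : ℕ} {T : Finset (Pr n)} {i j : Fin n} (h : conn T i j) : conn T j i := by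
  obtain ⟨h1, h2⟩ := h
  have hs : (s(i, j) : Sym2 (Fin n)) = s(j, i) := Sym2.eq_swap
  refine ⟨hs ▸ h1, ?_⟩
  simpa [hs] using h2

open Classical in
/-- the degree of `i` in `T` -/
noncomputable def deg {n : ℕ} (T : Finset (Pr n)) (i : Fin n) : ℕ := #{j | conn T i j}

open Classical in
lemma sum_deg_le {n : ℕ} (T : Finset (Pr n)) : ∑ i, deg T i ≤ 2 * #T := by
  have h0 : ∑ i, deg T i = #{p : Fin n × Fin n | conn T p.1 p.2} := by
    rw [Finset.card_eq_sum_card_fiberwise (f := Prod.fst) (t := Finset.univ) (by intro x _; simp)]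
    refine Finset.sum_congr rfl fun i _ => ?_
    unfold deg
    refine Finset.card_bij' (fun j _ => (i, j)) (fun p _ => p.2) ?_ ?_ ?_ ?_
    · intro j hj
      simpa using hj
    · rintro ⟨a, b⟩ h
      simp only [Finset.mem_filter, Finset.mem_univ, true_and] at h
      obtain ⟨h1, rfl⟩ := h
      simpa using h1
    · intro j _
      rfl
    · rintro ⟨a, b⟩ h
      simp only [Finset.mem_filter, Finset.mem_univ, true_and] at h
      obtain ⟨h1, rfl⟩ := h
      rfl
  rw [h0]
  have h1 : #(T.image Subtype.val) = #T := Finset.card_image_of_injective _ Subtype.val_injective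
  rw [← h1]
  refine Finset.card_le_mul_card_image_of_maps_to (f := fun p : Fin n × Fin n => (s(p.1, p.2) : Sym2 (Fin n)))
    ?_ 2 ?_
  · rintro ⟨i, j⟩ h
    simp only [Finset.mem_filter, Finset.mem_univ, true_and] at h
    obtain ⟨h1, h2⟩ := h
    rw [Finset.mem_image]
    exact ⟨_, h2, rfl⟩
  · intro b _
    induction b using Sym2.ind with
    | _ x y =>
      have : ({p ∈ ({p : Fin n × Fin n | conn T p.1 p.2} : Finset (Fin n × Fin n)) |
          (s(p.1, p.2) : Sym2 (Fin n)) = s(x, y)}) ⊆ {(x, y), (y, x)} := by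
        rintro ⟨i, j⟩ h
        simp only [Finset.mem_filter, Finset.mem_univ, true_and] at h
        have h2 := h.2
        rw [Sym2.eq_iff] at h2
        rcases h2 with ⟨rfl, rfl⟩ | ⟨rfl, rfl⟩ <;> simp
      exact (Finset.card_le_card this).trans Finset.card_le_two

open Classical in
lemma count1 {n : ℕ} (T : Finset (Pr n)) (τ : Equiv.Perm (Fin n)) (D K : ℕ)
    (hK : #{e ∈ T | pact τ e ≠ e} ≤ K) :
    (D - 1) * #{i | τ i ≠ i ∧ D ≤ deg T i} ≤ 2 * K := by
  set Nt : Finset (Pr n) := {e ∈ T | pact τ e ≠ e} with hNt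
  have h1 : ∀ i ∈ ({i | τ i ≠ i ∧ D ≤ deg T i} : Finset (Fin n)), D - 1 ≤ deg Nt i := by
    intro i hi
    simp only [Finset.mem_filter, Finset.mem_univ, true_and] at hi
    have h2 : ({j | conn T i j} : Finset (Fin n)).erase (τ i) ⊆ ({j | conn Nt i j} : Finset (Fin n)) := by
      intro j hj
      rw [Finset.mem_erase] at hj
      obtain ⟨hj1, hj2⟩ := hj
      simp only [Finset.mem_filter, Finset.mem_univ, true_and] at hj2 ⊢
      obtain ⟨hd, hm⟩ := hj2
      refine ⟨hd, ?_⟩
      rw [hNt, Finset.mem_filter]
      refine ⟨hm, ?_⟩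
      intro he
      have h3 : (s(τ i, τ j) : Sym2 (Fin n)) = s(i, j) := congrArg Subtype.val he
      rw [Sym2.eq_iff] at h3
      rcases h3 with ⟨h4, _⟩ | ⟨h4, _⟩
      · exact hi.1 h4
      · exact hj1 h4.symm
    have h3 := Finset.card_le_card h2
    have h4 := Finset.pred_card_le_card_erase (s := ({j | conn T i j} : Finset (Fin n))) (a := τ i)
    have h5 : deg T i = #{j | conn T i j} := rfl
    have h6 : deg Nt i = #{j | conn Nt i j} := rfl
    omega
  calc (D - 1) * #{i | τ i ≠ i ∧ D ≤ deg T i}
      = #{i | τ i ≠ i ∧ D ≤ deg T i} • (D - 1) := by rw [smul_eq_mul, mul_comm]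
    _ ≤ ∑ i ∈ ({i | τ i ≠ i ∧ D ≤ deg T i} : Finset (Fin n)), deg Nt i :=
        Finset.card_nsmul_le_sum _ _ _ h1
    _ ≤ ∑ i, deg Nt i := Finset.sum_le_univ_sum_of_nonneg (fun _ => Nat.zero_le _)
    _ ≤ 2 * #Nt := sum_deg_le Nt
    _ ≤ 2 * K := Nat.mul_le_mul_left _ hK

open Classical in
lemma count2 {n : ℕ} (T : Finset (Pr n)) (τ : Equiv.Perm (Fin n)) (D K : ℕ) (W : Finset (Fin n))
    (hW : ∀ j ∈ W, deg T j ≤ D)
    (hK : #{e | e ∉ T ∧ pact τ e ≠ e} ≤ K) :
    #{i | τ i ≠ i} * (#W - 2) ≤ 2 * K + #W * D := by
  set Nt : Finset (Pr n) := {e | e ∉ T ∧ pact τ e ≠ e} with hNt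
  have h1 : ∀ i ∈ ({i | τ i ≠ i} : Finset (Fin n)),
      #W - 2 ≤ deg Nt i + #{j ∈ W | conn T i j} := by
    intro i hi
    simp only [Finset.mem_filter, Finset.mem_univ, true_and] at hi
    have h2 : (W.erase (τ i)).erase i ⊆
        ({j | conn Nt i j} : Finset (Fin n)) ∪ ({j ∈ W | conn T i j} : Finset (Fin n)) := by
      intro j hj
      rw [Finset.mem_erase, Finset.mem_erase] at hj
      obtain ⟨hj1, hj2, hj3⟩ := hj
      have hd : ¬ (s(i, j) : Sym2 (Fin n)).IsDiag := by
        rw [Sym2.mk_isDiag_iff]; exact fun h => hj1 h.symm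
      rw [Finset.mem_union]
      by_cases hT : (⟨s(i, j), hd⟩ : Pr n) ∈ T
      · right
        rw [Finset.mem_filter]
        exact ⟨hj3, hd, hT⟩
      · left
        simp only [Finset.mem_filter, Finset.mem_univ, true_and]
        refine ⟨hd, ?_⟩
        rw [hNt, Finset.mem_filter]
        refine ⟨Finset.mem_univ _, hT, ?_⟩
        intro he
        have h3 : (s(τ i, τ j) : Sym2 (Fin n)) = s(i, j) := congrArg Subtype.val he
        rw [Sym2.eq_iff] at h3
        rcases h3 with ⟨h4, _⟩ | ⟨h4, _⟩
        · exact hi h4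
        · exact hj2 h4.symm
    have h3 := (Finset.card_le_card h2).trans (Finset.card_union_le _ _)
    have h4 := Finset.pred_card_le_card_erase (s := W) (a := τ i)
    have h4' := Finset.pred_card_le_card_erase (s := W.erase (τ i)) (a := i)
    have h6 : deg Nt i = #{j | conn Nt i j} := rfl
    omega
  have h2 : ∑ i, #{j ∈ W | conn T i j} ≤ #W * D := by
    have h3 : ∑ i, #{j ∈ W | conn T i j} = ∑ j ∈ W, #{i | conn T i j} := by
      simp only [Finset.card_filter]
      rw [Finset.sum_comm]
    rw [h3]
    refine (Finset.sum_le_card_nsmul _ _ D ?_).trans (le_of_eq (by rw [smul_eq_mul]))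
    intro j hj
    refine le_trans (le_of_eq ?_) (hW j hj)
    unfold deg
    congr 1
    ext i
    simp only [Finset.mem_filter, Finset.mem_univ, true_and]
    exact ⟨conn_symm, conn_symm⟩
  calc #{i | τ i ≠ i} * (#W - 2) = #{i | τ i ≠ i} • (#W - 2) := by rw [smul_eq_mul]
    _ ≤ ∑ i ∈ ({i | τ i ≠ i} : Finset (Fin n)), (deg Nt i + #{j ∈ W | conn T i j}) :=
        Finset.card_nsmul_le_sum _ _ _ h1
    _ ≤ ∑ i, (deg Nt i + #{j ∈ W | conn T i j}) :=
        Finset.sum_le_univ_sum_of_nonneg (fun _ => Nat.zero_le _)
    _ = ∑ i, deg Nt i + ∑ i, #{j ∈ W | conn T i j} := Finset.sum_add_distrib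
    _ ≤ 2 * K + #W * D := Nat.add_le_add ((sum_deg_le Nt).trans (Nat.mul_le_mul_left _ hK)) h2

/-- the part of `S` in the first graph -/
def left {n : ℕ} (S : Finset (Var n)) : Finset (Pr n) := {e | Sum.inl e ∈ S}

open Classical in
/-- `S` is a cut at threshold `D`: at most `D` vertices have degree `< D`, but more than `D`
vertices have degree `≤ D`. -/
def IsCut {n : ℕ} (D : ℕ) (S : Finset (Var n)) : Prop :=
  #{i | deg (left S) i < D} ≤ D ∧ D < #{i | deg (left S) i ≤ D}

open Classical in
lemma disagree {n : ℕ} (S : Finset (Var n)) (D K : ℕ) (hD : 2 ≤ D) (hKD : K ≤ (D - 1) ^ 2)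
    (hS : IsCut D S) (π π' σ : Equiv.Perm (Fin n))
    (hK : #{e | alph S e ≠ bet S π π' σ e} ≤ K) :
    #{i | π i ≠ π' i} ≤ 6 * D := by
  obtain ⟨hS1, hS2⟩ := hS
  -- first bound
  have h1 : #{e ∈ left S | pact (π⁻¹ * σ) e ≠ e} ≤ K := by
    refine (Finset.card_le_card ?_).trans hK
    intro e he
    simp only [left, Finset.mem_filter, Finset.mem_univ, true_and] at he ⊢
    obtain ⟨he1, he2⟩ := he
    intro h
    unfold alph bet at h
    rw [if_pos he1] at h
    split_ifs at h with h3
    · apply he2
      rw [pact_mul]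
      exact (Sum.inl_injective h).symm
  have h2 := count1 (left S) (π⁻¹ * σ) D K h1
  have h3 : #{e | e ∉ left S ∧ pact (π'⁻¹ * σ) e ≠ e} ≤ K := by
    refine (Finset.card_le_card ?_).trans hK
    intro e he
    simp only [left, Finset.mem_filter, Finset.mem_univ, true_and] at he ⊢
    obtain ⟨he1, he2⟩ := he
    intro h
    unfold alph bet at h
    rw [if_neg he1] at h
    split_ifs at h with h3
    · apply he2
      rw [pact_mul]
      exact (Sum.inr_injective h).symm
  obtain ⟨W, hW1, hW2⟩ := Finset.exists_subset_card_eq (Nat.succ_le_of_lt hS2)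
  have h4 := count2 (left S) (π'⁻¹ * σ) D K W (by
    intro j hj
    have := hW1 hj
    simpa using this) h3
  rw [hW2] at h4
  set A : Finset (Fin n) := {i | (π⁻¹ * σ) i ≠ i} with hA
  set A' : Finset (Fin n) := {i | (π'⁻¹ * σ) i ≠ i} with hA'
  have h5 : #A ≤ D + #{i | (π⁻¹ * σ) i ≠ i ∧ D ≤ deg (left S) i} := by
    have : A ⊆ ({i | deg (left S) i < D} : Finset (Fin n)) ∪
        ({i | (π⁻¹ * σ) i ≠ i ∧ D ≤ deg (left S) i} : Finset (Fin n)) := by
      intro i hi
      simp only [hA, Finset.mem_union, Finset.mem_filter, Finset.mem_univ, true_and] at hi ⊢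
      rcases lt_or_ge (deg (left S) i) D with h | h
      · exact Or.inl h
      · exact Or.inr ⟨hi, h⟩
    refine (Finset.card_le_card this).trans ((Finset.card_union_le _ _).trans ?_)
    omega
  obtain ⟨q, rfl⟩ : ∃ q, D = q + 1 := ⟨D - 1, by omega⟩
  have hq : 1 ≤ q := by omega
  simp only [Nat.add_sub_cancel] at h2 hKD
  have h6 : #{i | (π⁻¹ * σ) i ≠ i ∧ q + 1 ≤ deg (left S) i} ≤ 2 * q := by
    have : q * #{i | (π⁻¹ * σ) i ≠ i ∧ q + 1 ≤ deg (left S) i} ≤ q * (2 * q) := by
      calc _ ≤ 2 * K := h2
        _ ≤ 2 * q ^ 2 := Nat.mul_le_mul_left _ hKD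
        _ = q * (2 * q) := by ring
    exact Nat.le_of_mul_le_mul_left this (by omega)
  have h7 : #A' ≤ 3 * q + 5 := by
    have e1 : (q + 1).succ - 2 = q := by omega
    rw [e1] at h4
    have : #A' * q ≤ (3 * q + 5) * q := by
      calc _ ≤ 2 * K + (q + 1).succ * (q + 1) := h4
        _ ≤ 2 * q ^ 2 + (q + 2) * (q + 1) := by
          have := Nat.mul_le_mul_left 2 hKD
          simp only [Nat.succ_eq_add_one]
          nlinarith
        _ ≤ (3 * q + 5) * q := by nlinarith
    exact Nat.le_of_mul_le_mul_right this (by omega)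
  have h8 : ({i | π i ≠ π' i} : Finset (Fin n)) ⊆ A ∪ A' := by
    intro i hi
    simp only [hA, hA', Finset.mem_union, Finset.mem_filter, Finset.mem_univ, true_and] at hi ⊢
    by_contra hcon
    push Not at hcon
    obtain ⟨ha, hb⟩ := hcon
    apply hi
    have ha' : σ i = π i := by
      have := congrArg π ha
      simpa using this
    have hb' : σ i = π' i := by
      have := congrArg π' hb
      simpa using this
    rw [← ha', hb']
  have h9 := (Finset.card_le_card h8).trans (Finset.card_union_le _ _)
  omega

/-- A family of permutations which pairwise disagree in at most `m` points has at most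
`n ^ (2 m)` members. -/
lemma card_close {n m : ℕ} (hn : 1 ≤ n) (Pi0 : Finset (Equiv.Perm (Fin n)))
    (h : ∀ π ∈ Pi0, ∀ π' ∈ Pi0, #{i | π i ≠ π' i} ≤ m) : #Pi0 ≤ n ^ (2 * m) := by
  classical
  rcases Finset.eq_empty_or_nonempty Pi0 with rfl | ⟨π0, hπ0⟩
  · simp
  let g : (Fin m → Fin n × Fin n) → (Fin n → Fin n) := fun f i =>
    if h : ∃ t, (f t).1 = i then (f h.choose).2 else π0 i
  have hsub : Pi0.image (fun π : Equiv.Perm (Fin n) => (π : Fin n → Fin n)) ⊆
      (Finset.univ : Finset (Fin m → Fin n × Fin n)).image g := by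
    intro φ hφ
    rw [Finset.mem_image] at hφ
    obtain ⟨π, hπ, rfl⟩ := hφ
    have hA := h π hπ π0 hπ0
    set A : Finset (Fin n) := {i | π i ≠ π0 i} with hAdef
    let i0 : Fin n := ⟨0, hn⟩
    -- an enumeration of `A`
    let f : Fin m → Fin n × Fin n := fun t =>
      if ht : (t : ℕ) < #A then (((A.equivFin).symm ⟨t, ht⟩ : Fin n), π ((A.equivFin).symm ⟨t, ht⟩))
      else (i0, π i0)
    have hf : ∀ t, (f t).2 = π (f t).1 := by
      intro t
      simp only [f]
      split_ifs <;> rfl
    have hf2 : ∀ i ∈ A, ∃ t, (f t).1 = i := by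
      intro i hi
      have h1 := (A.equivFin ⟨i, hi⟩).2
      refine ⟨⟨(A.equivFin ⟨i, hi⟩ : ℕ), lt_of_lt_of_le h1 hA⟩, ?_⟩
      simp [f]
    rw [Finset.mem_image]
    refine ⟨f, Finset.mem_univ _, ?_⟩
    funext i
    simp only [g]
    split_ifs with hi
    · rw [hf, hi.choose_spec]
    · by_contra hne
      apply hi
      apply hf2
      rw [hAdef, Finset.mem_filter]
      exact ⟨Finset.mem_univ _, fun h' => hne h'.symm⟩
  have h1 : #(Pi0.image (fun π : Equiv.Perm (Fin n) => (π : Fin n → Fin n))) = #Pi0 := by
    apply Finset.card_image_of_injective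
    intro x y hxy
    exact Equiv.ext (congrFun hxy)
  rw [← h1]
  refine (Finset.card_le_card hsub).trans (Finset.card_image_le.trans (le_of_eq ?_))
  rw [Finset.card_univ, Fintype.card_fun, Fintype.card_prod, Fintype.card_fin, Fintype.card_fin,
    ← pow_two, ← pow_mul]

/-- Combinatorial core: a rectangle at a cut covers few isomorphic pairs. -/
lemma core {n : ℕ} (hn : 1 ≤ n) (S : Finset (Var n)) (s D : ℕ) (hD : 2 ≤ D) (hS : IsCut D S)
    (hs : s ≤ n.factorial)
    (hKD : 4 + 6 * (n * Nat.clog 2 n) ≤ (D - 1) ^ 2)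
    (R : Finset (Equiv.Perm (Fin n) × (Pr n → Bool)))
    (hR : n.factorial * 2 ^ Fintype.card (Pr n) ≤ s * #R)
    (hmix : ∀ p ∈ R, ∀ q ∈ R,
      Isomorphic n (fun x => if x ∈ S then inp p.1 p.2 x else inp q.1 q.2 x)) :
    n.factorial ≤ 2 * s * n ^ (12 * D) := by
  obtain ⟨Pi0, h1, h2⟩ := rectangle S s R hR hmix
  have h3 : #Pi0 ≤ n ^ (2 * (6 * D)) := by
    apply card_close hn
    intro π hπ π' hπ'
    obtain ⟨σ, hσ⟩ := h2 π hπ π' hπ'
    refine disagree S D (4 + 6 * (n * Nat.clog 2 n)) hD hKD hS π π' σ ?_
    have h4 : n.factorial ≤ 2 ^ (n * Nat.clog 2 n) := by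
      calc n.factorial ≤ n ^ n := Nat.factorial_le_pow n
        _ ≤ (2 ^ Nat.clog 2 n) ^ n := Nat.pow_le_pow_left (Nat.le_pow_clog (by norm_num) n) n
        _ = 2 ^ (n * Nat.clog 2 n) := by rw [← pow_mul, mul_comm]
    have h5 : 2 ^ #{e | alph S e ≠ bet S π π' σ e} ≤ 2 ^ (4 + 6 * (n * Nat.clog 2 n)) := by
      calc _ ≤ 16 * s ^ 4 * n.factorial ^ 2 := hσ
        _ ≤ 16 * n.factorial ^ 4 * n.factorial ^ 2 := by gcongr
        _ = 16 * n.factorial ^ 6 := by ring
        _ ≤ 16 * (2 ^ (n * Nat.clog 2 n)) ^ 6 := by gcongr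
        _ = 2 ^ (4 + 6 * (n * Nat.clog 2 n)) := by
          rw [pow_add, ← pow_mul, mul_comm (n * Nat.clog 2 n) 6]; norm_num
    exact (Nat.pow_le_pow_iff_right (by norm_num)).1 h5
  calc n.factorial ≤ 2 * s * #Pi0 := h1
    _ ≤ 2 * s * n ^ (2 * (6 * D)) := Nat.mul_le_mul_left _ h3
    _ = 2 * s * n ^ (12 * D) := by congr 2; ring

/-! ## Paths of branching programs -/

namespace BranchingProgram

variable {X : Type} {P : BranchingProgram X}

lemma Path.append {u v w : P.Node} {L L' : List (X × Bool)} (h : P.Path u L v)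
    (h' : P.Path v L' w) : P.Path u (L ++ L') w := by
  induction h with
  | refl u => simpa using h'
  | guess he _ ih => exact Path.guess he (ih h')
  | test he _ ih => exact Path.test he (ih h')

lemma Path.split {u w : P.Node} {L L' : List (X × Bool)} (h : P.Path u (L ++ L') w) :
    ∃ v, P.Path u L v ∧ P.Path v L' w := by
  generalize hM : L ++ L' = M at h
  induction h generalizing L with
  | refl u =>
    obtain ⟨rfl, rfl⟩ := List.append_eq_nil_iff.1 hM
    exact ⟨u, Path.refl u, Path.refl u⟩
  | guess he _ ih =>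
    obtain ⟨v, h1, h2⟩ := ih hM
    exact ⟨v, Path.guess he h1, h2⟩
  | test he hp ih =>
    cases L with
    | nil =>
      refine ⟨_, Path.refl _, ?_⟩
      simp only [List.nil_append] at hM
      rw [hM]
      exact Path.test he hp
    | cons t L =>
      simp only [List.cons_append, List.cons.injEq] at hM
      obtain ⟨rfl, hM⟩ := hM
      obtain ⟨v, h1, h2⟩ := ih hM
      exact ⟨v, Path.test he h1, h2⟩

end BranchingProgram

/-- the number of true variables of an isomorphic pair is even -/
lemma even_card {n : ℕ} {a : Var n → Bool} (h : Isomorphic n a) : Even #{x | a x = true} := by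
  classical
  rw [isomorphic_iff] at h
  obtain ⟨σ, hσ⟩ := h
  have h1 : #{x : Var n | a x = true} = #{e : Pr n | a (Sum.inl e) = true} + #{e : Pr n | a (Sum.inr e) = true} := by
    rw [Finset.card_filter, Finset.card_filter, Finset.card_filter, Fintype.sum_sum_type]
  have h2 : #{e : Pr n | a (Sum.inl e) = true} = #{e : Pr n | a (Sum.inr e) = true} := by
    refine Finset.card_bij' (fun e _ => pact σ e) (fun e _ => pact σ⁻¹ e) ?_ ?_ ?_ ?_
    · intro e he
      simp only [Finset.mem_filter, Finset.mem_univ, true_and] at he ⊢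
      rw [hσ, he]
    · intro e he
      simp only [Finset.mem_filter, Finset.mem_univ, true_and] at he ⊢
      rw [← hσ, pact_inv', he]
    · intro e _
      exact pact_inv σ e
    · intro e _
      exact pact_inv' σ e
  rw [h1, h2]
  exact ⟨_, rfl⟩

lemma flip_card {X : Type} [Fintype X] [DecidableEq X] (a : X → Bool) (x : X) :
    ¬ (Even #{y | a y = true} ∧ Even #{y | Function.update a x (!a x) y = true}) := by
  rintro ⟨h1, h2⟩
  have key : ∀ b : X → Bool, b x = true →
      #{y | b y = true} = #{y | Function.update b x false y = true} + 1 := by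
    intro b hb
    have : ({y | b y = true} : Finset X) = insert x ({y | Function.update b x false y = true} : Finset X) := by
      ext y
      simp only [Finset.mem_filter, Finset.mem_univ, true_and, Finset.mem_insert]
      by_cases hy : y = x
      · subst hy; simp [hb]
      · simp [hy]
    rw [this, Finset.card_insert_of_notMem]
    simp
  cases hax : a x with
  | true =>
    have h3 := key a hax
    rw [hax] at h2
    simp only [Bool.not_true] at h2
    rw [h3] at h1
    exact (Nat.even_add_one.1 h1) h2
  | false =>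
    have h3 := key (Function.update a x true) (by simp)
    rw [hax] at h2
    simp only [Bool.not_false] at h2
    rw [h3] at h2
    have h4 : Function.update (Function.update a x true) x false = a := by
      rw [Function.update_idem, ← hax, Function.update_eq_self]
    rw [h4] at h2
    exact (Nat.even_add_one.1 h2) h1

/-- in a read-once program for isomorphism every accepting path tests every variable -/
lemma covers {n : ℕ} {P : BranchingProgram (Var n)} (hro : P.IsReadOnce)
    (hc : P.Computes (Isomorphic n)) {L : List (Var n × Bool)} (hL : P.Path P.start L P.accept)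
    (x : Var n) : x ∈ L.map Prod.fst := by
  classical
  by_contra hx
  let a : Var n → Bool := fun y => decide ((y, true) ∈ L)
  have hnd := hro L hL
  have ha : ∀ t ∈ L, a t.1 = t.2 := by
    rintro ⟨y, b⟩ ht
    cases b with
    | true => simpa [a] using ht
    | false =>
      simp only [a, decide_eq_false_iff_not]
      intro h'
      have h1 := List.inj_on_of_nodup_map hnd ht h' rfl
      simp at h1
  have ha' : ∀ t ∈ L, Function.update a x (!a x) t.1 = t.2 := by
    intro t ht
    rw [Function.update_of_ne, ha t ht]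
    rintro rfl
    exact hx (List.mem_map_of_mem ht)
  have h1 : Isomorphic n a := (hc a).1 ⟨L, hL, ha⟩
  have h2 : Isomorphic n (Function.update a x (!a x)) := (hc _).1 ⟨L, hL, ha'⟩
  exact flip_card a x ⟨even_card h1, even_card h2⟩

/-- the set of variables of a list of tests -/
def varsOf {n : ℕ} (L : List (Var n × Bool)) : Finset (Var n) := (L.map Prod.fst).toFinset

open Classical in
lemma deg_insert_le {n : ℕ} (S : Finset (Var n)) (x : Var n) (i : Fin n) :
    deg (left (insert x S)) i ≤ deg (left S) i + 1 := by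
  have key : ∀ e : Pr n, #{j : Fin n | (s(i, j) : Sym2 (Fin n)) = e.1} ≤ 1 := by
    intro e
    rw [Finset.card_le_one]
    intro j hj j' hj'
    simp only [Finset.mem_filter, Finset.mem_univ, true_and] at hj hj'
    rw [← hj', Sym2.eq_iff] at hj
    rcases hj with ⟨_, h⟩ | ⟨h1, h2⟩
    · exact h
    · rw [h2, h1]
  cases x with
  | inl e =>
    unfold deg
    have h1 : ({j | conn (left (insert (Sum.inl e) S)) i j} : Finset (Fin n)) ⊆
        ({j | conn (left S) i j} : Finset (Fin n)) ∪ ({j : Fin n | (s(i, j) : Sym2 (Fin n)) = e.1} : Finset (Fin n)) := by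
      intro j hj
      simp only [Finset.mem_union, Finset.mem_filter, Finset.mem_univ, true_and] at hj ⊢
      obtain ⟨h1, h2⟩ := hj
      simp only [left, Finset.mem_filter, Finset.mem_univ, true_and, Finset.mem_insert] at h2
      rcases h2 with h2 | h2
      · right
        have := Sum.inl_injective h2
        rw [← this]
      · left
        refine ⟨h1, ?_⟩
        simpa [left] using h2
    have h2 := (Finset.card_le_card h1).trans (Finset.card_union_le _ _)
    have h3 := key e
    omega
  | inr e =>
    have h1 : left (insert (Sum.inr e) S) = left S := by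
      ext e'
      simp [left]
    rw [h1]
    omega

open Classical in
lemma deg_full {n : ℕ} {S : Finset (Var n)} (hS : ∀ x, x ∈ S) (i : Fin n) :
    deg (left S) i = n - 1 := by
  unfold deg
  have : ({j | conn (left S) i j} : Finset (Fin n)) = (Finset.univ : Finset (Fin n)).erase i := by
    ext j
    simp only [Finset.mem_filter, Finset.mem_univ, true_and, Finset.mem_erase, and_true]
    constructor
    · rintro ⟨h1, -⟩ rfl
      exact h1 (by simp)
    · intro h
      have hd : ¬ (s(i, j) : Sym2 (Fin n)).IsDiag := by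
        rw [Sym2.mk_isDiag_iff]; exact fun h' => h h'.symm
      refine ⟨hd, ?_⟩
      simp [left, hS]
  rw [this, Finset.card_erase_of_mem (Finset.mem_univ _), Finset.card_univ, Fintype.card_fin]

open Classical in
/-- every list testing all variables can be cut -/
lemma exists_cut {n : ℕ} {D : ℕ} (hD : 1 ≤ D) (hDn : D < n) (L : List (Var n × Bool))
    (hL : ∀ x, x ∈ L.map Prod.fst) :
    ∃ L1 L2, L = L1 ++ L2 ∧ IsCut D (varsOf L1) := by
  let f : ℕ → ℕ := fun k => #{i | deg (left (varsOf (L.take k))) i < D}
  have h0 : D < f 0 := by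
    have : f 0 = n := by
      simp only [f]
      rw [Finset.filter_true_of_mem]
      · simp
      · intro i _
        have : deg (left (varsOf (List.take 0 L))) i = 0 := by
          simp [deg, left, varsOf, conn]
        omega
    omega
  have h1 : f L.length ≤ D := by
    have : f L.length = 0 := by
      simp only [f]
      rw [Finset.card_eq_zero, Finset.filter_eq_empty_iff]
      intro i _
      rw [List.take_length, deg_full]
      · omega
      · intro x
        simp only [varsOf, List.mem_toFinset]
        exact hL x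
    omega
  have h2 : ∃ k, f k ≤ D := ⟨_, h1⟩
  let k := Nat.find h2
  have hk : f k ≤ D := Nat.find_spec h2
  have hk0 : k ≠ 0 := by
    intro h
    rw [h] at hk
    omega
  obtain ⟨m, hm⟩ := Nat.exists_eq_succ_of_ne_zero hk0
  have hmk : ¬ f m ≤ D := Nat.find_min h2 (by omega)
  refine ⟨L.take k, L.drop k, (List.take_append_drop k L).symm, hk, ?_⟩
  have h3 : ∀ i, deg (left (varsOf (L.take k))) i ≤ deg (left (varsOf (L.take m))) i + 1 := by
    intro i
    rw [hm]
    rcases lt_or_ge m L.length with hlt | hge
    · have : varsOf (L.take (m + 1)) = insert (L[m]).1 (varsOf (L.take m)) := by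
        ext x
        simp only [varsOf, List.take_add_one, List.mem_toFinset, List.map_append, List.mem_append,
          Finset.mem_insert]
        rw [List.getElem?_eq_getElem hlt]
        simp [or_comm]
      rw [Nat.succ_eq_add_one, this]
      exact deg_insert_le _ _ _
    · rw [List.take_of_length_le hge, List.take_of_length_le (by omega)]
      omega
  have h4 : ({i | deg (left (varsOf (L.take m))) i < D} : Finset (Fin n)) ⊆
      ({i | deg (left (varsOf (L.take k))) i ≤ D} : Finset (Fin n)) := by
    intro i hi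
    simp only [Finset.mem_filter, Finset.mem_univ, true_and] at hi ⊢
    have := h3 i
    omega
  have h5 := Finset.card_le_card h4
  have h6 : D < f m := by omega
  exact lt_of_lt_of_le h6 h5

/-- The lower bound at threshold `D`. -/
lemma lower_aux {n : ℕ} (hn : 1 ≤ n) (P : BranchingProgram (Var n)) (hro : P.IsReadOnce)
    (hc : P.Computes (Isomorphic n)) (D : ℕ) (hD : 2 ≤ D) (hDn : D < n)
    (hs : P.size ≤ n.factorial)
    (hKD : 4 + 6 * (n * Nat.clog 2 n) ≤ (D - 1) ^ 2) :
    n.factorial ≤ 2 * P.size * n ^ (12 * D) := by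
  classical
  -- for each pair a cut node
  have h1 : ∀ p : Equiv.Perm (Fin n) × (Pr n → Bool), ∃ v : P.Node, ∃ L1 L2,
      P.Path P.start L1 v ∧ P.Path v L2 P.accept ∧
      (∀ t ∈ L1, inp p.1 p.2 t.1 = t.2) ∧ (∀ t ∈ L2, inp p.1 p.2 t.1 = t.2) ∧
      IsCut D (varsOf L1) := by
    intro p
    obtain ⟨L, hL, hcons⟩ := (hc _).2 (inp_isomorphic p.1 p.2)
    obtain ⟨L1, L2, rfl, hcut⟩ := exists_cut (by omega) hDn L (covers hro hc hL)
    obtain ⟨v, hv1, hv2⟩ := hL.split
    exact ⟨v, L1, L2, hv1, hv2, fun t ht => hcons t (List.mem_append_left _ ht),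
      fun t ht => hcons t (List.mem_append_right _ ht), hcut⟩
  choose v hv using h1
  -- a popular node
  have hne : (Finset.univ : Finset P.Node).Nonempty := ⟨P.start, Finset.mem_univ _⟩
  obtain ⟨w, -, hw⟩ := Finset.exists_max_image (Finset.univ : Finset P.Node)
    (fun u => #{p | v p = u}) hne
  set R : Finset (Equiv.Perm (Fin n) × (Pr n → Bool)) := {p | v p = w} with hRdef
  have hR : n.factorial * 2 ^ Fintype.card (Pr n) ≤ P.size * #R := by
    have h2 : Fintype.card (Equiv.Perm (Fin n) × (Pr n → Bool)) = n.factorial * 2 ^ Fintype.card (Pr n) := by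
      rw [Fintype.card_prod, Fintype.card_perm, Fintype.card_fin, Fintype.card_fun, Fintype.card_bool]
    rw [← h2, ← Finset.card_univ, Finset.card_eq_sum_card_fiberwise (f := v) (t := Finset.univ)
      (by intro x _; simp)]
    refine (Finset.sum_le_card_nsmul _ _ (#R) ?_).trans (le_of_eq ?_)
    · intro u hu
      exact hw u hu
    · rw [smul_eq_mul, Finset.card_univ]
      rfl
  have hRne : R.Nonempty := by
    rw [Finset.nonempty_iff_ne_empty]
    intro h
    rw [h] at hR
    simp only [Finset.card_empty, mul_zero, Nat.le_zero] at hR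
    have : 0 < n.factorial * 2 ^ Fintype.card (Pr n) := by positivity
    omega
  -- all prefixes reaching `w` read the same set
  have hsame : ∀ L1 L1' L2, P.Path P.start L1 w → P.Path P.start L1' w → P.Path w L2 P.accept →
      varsOf L1 = varsOf L1' := by
    have haux : ∀ L1 L2, P.Path P.start L1 w → P.Path w L2 P.accept →
        ∀ x, x ∈ varsOf L1 ↔ x ∉ varsOf L2 := by
      intro L1 L2 ha hb x
      have h2 := covers hro hc (ha.append hb) x
      have h3 := hro _ (ha.append hb)
      rw [List.map_append] at h2 h3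
      rw [List.nodup_append] at h3
      simp only [varsOf, List.mem_toFinset]
      constructor
      · intro hx hx'
        exact h3.2.2 x hx x hx' rfl
      · intro hx
        rcases List.mem_append.1 h2 with h4 | h4
        · exact h4
        · exact absurd h4 hx
    intro L1 L1' L2 ha ha' hb
    ext x
    rw [haux L1 L2 ha hb x, haux L1' L2 ha' hb x]
  obtain ⟨p0, hp0⟩ := hRne
  have hp0' : v p0 = w := by simpa [hRdef] using hp0
  obtain ⟨M1, M2, hM1, hM2, hM3, hM4, hM5⟩ := hv p0
  rw [hp0'] at hM1 hM2
  refine core hn (varsOf M1) P.size D hD hM5 hs hKD R hR ?_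
  intro p hp q hq
  have hp' : v p = w := by simpa [hRdef] using hp
  have hq' : v q = w := by simpa [hRdef] using hq
  obtain ⟨L1, L2, h1, h2, h3, h4, h5⟩ := hv p
  obtain ⟨L1', L2', h1', h2', h3', h4', h5'⟩ := hv q
  rw [hp'] at h1 h2
  rw [hq'] at h1' h2'
  apply (hc _).1
  refine ⟨L1 ++ L2', h1.append h2', ?_⟩
  intro t ht
  have e1 : varsOf L1 = varsOf M1 := hsame _ _ _ h1 hM1 hM2
  rcases List.mem_append.1 ht with ht | ht
  · have : t.1 ∈ varsOf M1 := by
      rw [← e1]
      simp only [varsOf, List.mem_toFinset]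
      exact List.mem_map_of_mem ht
    simp only [this, if_true]
    exact h3 t ht
  · have : t.1 ∉ varsOf M1 := by
      rw [← e1]
      simp only [varsOf, List.mem_toFinset]
      intro hx
      have h6 := hro _ (h1.append h2')
      rw [List.map_append, List.nodup_append] at h6
      exact h6.2.2 t.1 hx t.1 (List.mem_map_of_mem ht) rfl
    simp only [this, if_false]
    exact h4' t ht

/-- The lower bound. -/
lemma lower {n : ℕ} (hn : 2 ≤ n) (P : BranchingProgram (Var n)) (hro : P.IsReadOnce)
    (hc : P.Computes (Isomorphic n)) :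
    n.factorial ≤ P.size * n ^ (50 * (Nat.sqrt (n * Nat.clog 2 n) + 1)) := by
  have hsize : 1 ≤ P.size := Fintype.card_pos_iff.2 ⟨P.start⟩
  set x := n * Nat.clog 2 n with hx
  have hx2 : 2 ≤ x := by
    have h1 : 1 ≤ Nat.clog 2 n := Nat.clog_pos (by norm_num) hn
    rw [hx]
    nlinarith
  set t := Nat.sqrt x with ht
  set D := Nat.sqrt (4 + 6 * x) + 2 with hD
  have hDt : D ≤ 3 * t + 4 := by
    have h1 : Nat.sqrt (4 + 6 * x) < 3 * (t + 1) := by
      rw [Nat.sqrt_lt']
      have h2 : x < (t + 1) ^ 2 := by
        rw [ht]; exact Nat.lt_succ_sqrt' x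
      nlinarith
    omega
  have hKD : 4 + 6 * x ≤ (D - 1) ^ 2 := by
    have h1 : 4 + 6 * x < (Nat.sqrt (4 + 6 * x) + 1) ^ 2 := Nat.lt_succ_sqrt' _
    have h2 : D - 1 = Nat.sqrt (4 + 6 * x) + 1 := by omega
    rw [h2]; exact h1.le
  have key : n.factorial ≤ P.size * n ^ (12 * D + 1) := by
    rcases lt_or_ge D n with hDn | hDn
    · rcases le_total P.size n.factorial with hs | hs
      · have h1 := lower_aux (by omega) P hro hc D (by omega) hDn hs hKD
        calc n.factorial ≤ 2 * P.size * n ^ (12 * D) := h1
          _ ≤ n * P.size * n ^ (12 * D) := by gcongr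
          _ = P.size * n ^ (12 * D + 1) := by rw [pow_succ]; ring
      · calc n.factorial ≤ P.size := hs
          _ = P.size * 1 := (mul_one _).symm
          _ ≤ P.size * n ^ (12 * D + 1) := by
            apply Nat.mul_le_mul_left
            exact Nat.one_le_pow _ _ (by omega)
    · calc n.factorial ≤ n ^ n := Nat.factorial_le_pow n
        _ ≤ n ^ (12 * D + 1) := Nat.pow_le_pow_right (by omega) (by omega)
        _ = 1 * n ^ (12 * D + 1) := (one_mul _).symm
        _ ≤ P.size * n ^ (12 * D + 1) := Nat.mul_le_mul_right _ hsize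
  refine key.trans (Nat.mul_le_mul_left _ (Nat.pow_le_pow_right (by omega) ?_))
  omega

/-! ## The brute force program -/

section upper

variable (n : ℕ)

/-- number of pairs -/
abbrev NP : ℕ := Fintype.card (Pr n)

/-- the `i`-th pair -/
noncomputable def pr (i : Fin (NP n)) : Pr n := (Fintype.equivFin (Pr n)).symm i

/-- nodes of the brute force program: for each permutation a chain -/
abbrev BNode : Type := (Equiv.Perm (Fin n) × Fin (NP n + 1) × Option Bool) ⊕ Bool

/-- the edges of the brute force program -/
inductive BEdge : BNode n → Option (Var n × Bool) → BNode n → Prop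
  | init (π : Equiv.Perm (Fin n)) : BEdge (Sum.inr false) none (Sum.inl (π, 0, none))
  | readx (π : Equiv.Perm (Fin n)) (i : Fin (NP n)) (b : Bool) :
      BEdge (Sum.inl (π, i.castSucc, none)) (some (Sum.inl (pr n i), b))
        (Sum.inl (π, i.castSucc, some b))
  | ready (π : Equiv.Perm (Fin n)) (i : Fin (NP n)) (b : Bool) :
      BEdge (Sum.inl (π, i.castSucc, some b)) (some (Sum.inr (pact π (pr n i)), b))
        (Sum.inl (π, i.succ, none))
  | fin (π : Equiv.Perm (Fin n)) : BEdge (Sum.inl (π, Fin.last _, none)) none (Sum.inr true)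

/-- the rank function -/
def brank : BNode n → ℕ
  | Sum.inr false => 0
  | Sum.inl (_, i, none) => 1 + 2 * i
  | Sum.inl (_, i, some _) => 2 + 2 * i
  | Sum.inr true => 2 + 2 * NP n

/-- the brute force program -/
noncomputable def brute : BranchingProgram (Var n) where
  Node := BNode n
  start := Sum.inr false
  accept := Sum.inr true
  Edge := BEdge n
  acyclic := by
    refine ⟨brank n, ?_⟩
    rintro u l v h
    cases h with
    | init π => simp [brank]
    | readx π i b => simp [brank]
    | ready π i b => simp [brank]; omega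
    | fin π => simp [brank]

lemma brute_size : (brute n).size = 3 * (n.choose 2 + 1) * n.factorial + 2 := by
  unfold BranchingProgram.size
  change Fintype.card (BNode n) = _
  have h : NP n = n.choose 2 := by
    change Fintype.card (Pr n) = _
    rw [Sym2.card_subtype_not_diag, Fintype.card_fin]
  rw [Fintype.card_sum, Fintype.card_prod, Fintype.card_prod, Fintype.card_perm, Fintype.card_fin,
    Fintype.card_fin, Fintype.card_option, Fintype.card_bool, h]
  ring

/-- the rank at which a variable is read in the chain of `π` -/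
noncomputable def vrank (π : Equiv.Perm (Fin n)) : Var n → ℕ
  | Sum.inl e => 1 + 2 * (Fintype.equivFin (Pr n) e : ℕ)
  | Sum.inr e => 2 + 2 * (Fintype.equivFin (Pr n) (pact π⁻¹ e) : ℕ)

/-- invariants of paths inside a chain -/
lemma chain_aux (π : Equiv.Perm (Fin n)) (u v : (brute n).Node) (L : List (Var n × Bool))
    (h : (brute n).Path u L v) (hu : (∃ i c, u = Sum.inl (π, i, c)) ∨ u = Sum.inr true) :
    (L.map (fun t => vrank n π t.1)).Pairwise (· < ·) ∧
      ∀ t ∈ L, brank n u ≤ vrank n π t.1 := by
  induction h with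
  | refl u => simp
  | guess he hp ih =>
    rcases hu with ⟨i, c, rfl⟩ | rfl
    · cases he with
      | fin π' =>
        obtain ⟨h1, h2⟩ := ih (Or.inr rfl)
        refine ⟨h1, fun t ht => le_trans ?_ (h2 t ht)⟩
        simp [brank]
    · cases he
  | test he hp ih =>
    rcases hu with ⟨i, c, rfl⟩ | rfl
    · cases he with
      | readx π' i b =>
        obtain ⟨h1, h2⟩ := ih (Or.inl ⟨_, _, rfl⟩)
        have h3 : vrank n π (Sum.inl (pr n i)) = 1 + 2 * (i : ℕ) := by
          simp [vrank, pr]
        constructor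
        · rw [List.map_cons, List.pairwise_cons]
          refine ⟨?_, h1⟩
          intro r hr
          rw [List.mem_map] at hr
          obtain ⟨t, ht, rfl⟩ := hr
          have := h2 t ht
          simp only [brank, Fin.val_castSucc] at this
          simp only [h3]
          omega
        · intro t ht
          rcases List.mem_cons.1 ht with rfl | ht
          · simp only [h3, brank, Fin.val_castSucc]
            omega
          · have := h2 t ht
            simp only [brank, Fin.val_castSucc] at this ⊢
            omega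
      | ready π' i b =>
        obtain ⟨h1, h2⟩ := ih (Or.inl ⟨_, _, rfl⟩)
        have h3 : vrank n π (Sum.inr (pact π (pr n i))) = 2 + 2 * (i : ℕ) := by
          simp [vrank, pr, pact_inv]
        constructor
        · rw [List.map_cons, List.pairwise_cons]
          refine ⟨?_, h1⟩
          intro r hr
          rw [List.mem_map] at hr
          obtain ⟨t, ht, rfl⟩ := hr
          have := h2 t ht
          simp only [brank, Fin.val_succ] at this
          simp only [h3]
          omega
        · intro t ht
          rcases List.mem_cons.1 ht with rfl | ht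
          · simp only [h3, brank, Fin.val_castSucc]
            omega
          · have := h2 t ht
            simp only [brank, Fin.val_succ, Fin.val_castSucc] at this ⊢
            omega
    · cases he

lemma brute_readOnce : (brute n).IsReadOnce := by
  intro L hL
  have key : ∀ π : Equiv.Perm (Fin n), ∀ L', (brute n).Path (Sum.inl (π, 0, none)) L' (brute n).accept →
      (L'.map Prod.fst).Nodup := by
    intro π L' hL'
    have h1 := (chain_aux n π _ _ _ hL' (Or.inl ⟨_, _, rfl⟩)).1
    have h2 : (L'.map (fun t => vrank n π t.1)).Nodup := h1.imp (fun h => ne_of_lt h)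
    have h3 : L'.map (fun t => vrank n π t.1) = (L'.map Prod.fst).map (vrank n π) := by
      rw [List.map_map]; rfl
    rw [h3] at h2
    exact List.Nodup.of_map _ h2
  generalize hs : (brute n).start = u at hL
  cases hL with
  | refl u => simp
  | guess he hp =>
    subst hs
    cases he with
    | init π => exact key π _ hp
  | test he hp =>
    subst hs
    cases he

/-- soundness -/
lemma sound_aux (π : Equiv.Perm (Fin n)) (a : Var n → Bool) (u : (brute n).Node)
    (L : List (Var n × Bool))
    (h : (brute n).Path u L (Sum.inr true)) (ha : ∀ t ∈ L, a t.1 = t.2) :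
    (∀ i : Fin (NP n + 1), u = Sum.inl (π, i, none) →
      ∀ j : Fin (NP n), (i : ℕ) ≤ j → a (Sum.inr (pact π (pr n j))) = a (Sum.inl (pr n j))) ∧
    (∀ (i : Fin (NP n + 1)) (b : Bool), u = Sum.inl (π, i, some b) →
      ∀ j : Fin (NP n), ((i : ℕ) < j → a (Sum.inr (pact π (pr n j))) = a (Sum.inl (pr n j))) ∧
        ((i : ℕ) = j → a (Sum.inr (pact π (pr n j))) = b)) := by
  generalize hv : (Sum.inr true : (brute n).Node) = v at h
  induction h with
  | refl u =>
    subst hv
    refine ⟨fun i hi => by simp at hi, fun i b hi => by simp at hi⟩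
  | guess he hp ih =>
    refine ⟨?_, ?_⟩
    · rintro i rfl
      cases he with
      | fin π' =>
        intro j hj
        simp only [Fin.val_last] at hj
        exact absurd j.2 (by omega)
    · rintro i b rfl
      cases he
  | test he hp ih =>
    have ih' := ih (fun t ht => ha t (List.mem_cons_of_mem _ ht)) hv
    refine ⟨?_, ?_⟩
    · rintro i rfl
      cases he with
      | readx π' i b =>
        have h1 := (ih'.2 _ _ rfl)
        intro j hj
        simp only [Fin.val_castSucc] at hj
        rcases eq_or_lt_of_le hj with h2 | h2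
        · have h3 := (h1 j).2 (by simpa using h2)
          rw [h3]
          have h4 := ha _ (List.mem_cons_self ..)
          have h5 : i = j := Fin.ext h2
          rw [← h5]
          exact h4.symm
        · exact (h1 j).1 (by simpa using h2)
    · rintro i b rfl
      cases he with
      | ready π' i b' =>
        have h1 := ih'.1 _ rfl
        intro j
        refine ⟨?_, ?_⟩
        · intro hj
          simp only [Fin.val_castSucc] at hj
          exact h1 j (by simp; omega)
        · intro hj
          simp only [Fin.val_castSucc] at hj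
          have h4 := ha _ (List.mem_cons_self ..)
          have h5 : i = j := Fin.ext hj
          rw [← h5]
          exact h4

/-- completeness -/
lemma complete_aux (π : Equiv.Perm (Fin n)) (a : Var n → Bool)
    (hπ : ∀ e, a (Sum.inr (pact π e)) = a (Sum.inl e)) :
    ∀ k : ℕ, ∀ hk : k ≤ NP n, ∃ L, (brute n).Path (Sum.inl (π, ⟨NP n - k, by omega⟩, none)) L (Sum.inr true) ∧
      ∀ t ∈ L, a t.1 = t.2 := by
  intro k
  induction k with
  | zero =>
    intro hk
    refine ⟨[], ?_, by simp⟩
    refine BranchingProgram.Path.guess (v := (Sum.inr true : BNode n)) ?_ (BranchingProgram.Path.refl _)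
    exact BEdge.fin π
  | succ k ih =>
    intro hk
    obtain ⟨L, hL, hLa⟩ := ih (by omega)
    have hlt : NP n - (k + 1) < NP n := by omega
    let i : Fin (NP n) := ⟨NP n - (k + 1), hlt⟩
    refine ⟨(Sum.inl (pr n i), a (Sum.inl (pr n i))) ::
      (Sum.inr (pact π (pr n i)), a (Sum.inl (pr n i))) :: L, ?_, ?_⟩
    · have e1 : (brute n).Edge (Sum.inl (π, i.castSucc, none))
          (some (Sum.inl (pr n i), a (Sum.inl (pr n i))))
          (Sum.inl (π, i.castSucc, some (a (Sum.inl (pr n i))))) :=
        BEdge.readx π i (a (Sum.inl (pr n i)))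
      have e2 : (brute n).Edge (Sum.inl (π, i.castSucc, some (a (Sum.inl (pr n i)))))
          (some (Sum.inr (pact π (pr n i)), a (Sum.inl (pr n i))))
          (Sum.inl (π, i.succ, none)) :=
        BEdge.ready π i (a (Sum.inl (pr n i)))
      have e3 : (i.succ : Fin (NP n + 1)) = ⟨NP n - k, by omega⟩ := by
        apply Fin.ext
        change NP n - (k + 1) + 1 = NP n - k
        omega
      rw [e3] at e2
      exact BranchingProgram.Path.test e1 (BranchingProgram.Path.test e2 hL)
    · intro t ht
      rcases List.mem_cons.1 ht with rfl | ht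
      · rfl
      · rcases List.mem_cons.1 ht with rfl | ht
        · exact hπ _
        · exact hLa t ht

lemma brute_computes : (brute n).Computes (Isomorphic n) := by
  intro a
  rw [isomorphic_iff]
  constructor
  · rintro ⟨L, hL, ha⟩
    generalize hs : (brute n).start = u at hL
    generalize hv : (brute n).accept = v at hL
    cases hL with
    | refl u =>
      rw [← hv] at hs
      change (Sum.inr false : BNode n) = Sum.inr true at hs
      simp at hs
    | guess he hp =>
      subst hs
      subst hv
      cases he with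
      | init π =>
        refine ⟨π, fun e => ?_⟩
        have h1 := (sound_aux n π a _ _ hp ha).1 0 rfl (Fintype.equivFin (Pr n) e) (by simp)
        simpa [pr] using h1
    | test he hp =>
      subst hs
      cases he
  · rintro ⟨π, hπ⟩
    obtain ⟨L, hL, hLa⟩ := complete_aux n π a hπ (NP n) le_rfl
    refine ⟨L, ?_, hLa⟩
    have e1 : (brute n).Edge (brute n).start none (Sum.inl (π, 0, none)) := BEdge.init π
    have : (⟨NP n - NP n, by omega⟩ : Fin (NP n + 1)) = 0 := by
      apply Fin.ext
      simp
    rw [this] at hL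
    exact BranchingProgram.Path.guess e1 hL

end upper

/-- **Brute force is optimal for read-once branching programs deciding graph isomorphism.**
For every `n ≥ 2` there is a nondeterministic read-once branching program with
`3 (binom n 2 + 1) n! + 2` nodes deciding whether two graphs on `n` vertices are isomorphic, and
every such program has at least `n! / n ^ (50 (√(n ⌈log₂ n⌉) + 1))` nodes. -/
theorem readOnce_bound (n : ℕ) (hn : 2 ≤ n) :
    (∃ P : BranchingProgram (Var n), P.IsReadOnce ∧ P.Computes (Isomorphic n) ∧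
      P.size = 3 * (n.choose 2 + 1) * n.factorial + 2) ∧
    (∀ P : BranchingProgram (Var n), P.IsReadOnce → P.Computes (Isomorphic n) →
      n.factorial ≤ P.size * n ^ (50 * (Nat.sqrt (n * Nat.clog 2 n) + 1))) :=
  ⟨⟨brute n, brute_readOnce n, brute_computes n, brute_size n⟩,
    fun P hro hc => lower hn P hro hc⟩

end Pool.Agent.Results.MP_128e7d_lc.ReadOnce
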